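import Mathlib

set_option autoImplicit false
open scoped ENNReal Classical

namespace Pool.Agent.H710.ECP

/-- `ℓ²(G, H)` -/
abbrev L2 (G H : Type) [NormedAddCommGroup H] : Type := lp (fun _ : G => H) 2

section W
variable {G H : Type} [NormedAddCommGroup H] [InnerProductSpace ℂ H]

/-- `(W e A ξ) g = A g (ξ (e g))` -/
noncomputable def W (e : G ≃ G) (A : G → H →ₗᵢ[ℂ] H) : L2 G H →ₗᵢ[ℂ] L2 G H where
  toFun ξ := ⟨fun g => A g (ξ (e g)), by
    apply memℓp_gen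
    simp only [LinearIsometry.norm_map]
    have h := (memℓp_gen_iff (p := 2) (by norm_num)).1 (lp.memℓp ξ)
    exact (e.summable_iff (f := fun g => ‖ξ g‖ ^ (2:ℝ≥0∞).toReal)).2 h⟩
  map_add' ξ η := by
    ext g
    show A g ((ξ + η) (e g)) = A g (ξ (e g)) + A g (η (e g))
    rw [lp.coeFn_add, Pi.add_apply, map_add]
  map_smul' c ξ := by
    ext g
    simp
  norm_map' ξ := by
    show ‖(⟨fun g => A g (ξ (e g)), _⟩ : L2 G H)‖ = ‖ξ‖
    rw [lp.norm_eq_tsum_rpow (by norm_num), lp.norm_eq_tsum_rpow (by norm_num)]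
    congr 1
    simp only [LinearIsometry.norm_map]
    exact e.tsum_eq (fun g => ‖ξ g‖ ^ (2:ℝ≥0∞).toReal)

@[simp] theorem W_apply (e : G ≃ G) (A : G → H →ₗᵢ[ℂ] H) (ξ : L2 G H) (g : G) :
    W e A ξ g = A g (ξ (e g)) := rfl

/-- the bounded operator `W e A` -/
noncomputable def WC (e : G ≃ G) (A : G → H →ₗᵢ[ℂ] H) : L2 G H →L[ℂ] L2 G H :=
  (W e A).toContinuousLinearMap

@[simp] theorem WC_apply (e : G ≃ G) (A : G → H →ₗᵢ[ℂ] H) (ξ : L2 G H) (g : G) :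
    WC e A ξ g = A g (ξ (e g)) := rfl

theorem ext_single {E : Type} [NormedAddCommGroup E] [NormedSpace ℂ E]
    (S T : L2 G H →L[ℂ] E) (h : ∀ g a, S (lp.single 2 g a) = T (lp.single 2 g a)) : S = T := by
  ext ξ
  have h1 := lp.hasSum_single (p := 2) (by norm_num) ξ
  have h2 := h1.mapL S
  have h3 := h1.mapL T
  simp only [h] at h2
  exact h2.unique h3

end W

section groupvN
variable {Γ : Type}

/-- `(P e ξ) h = ξ (e h)` -/
noncomputable def P (e : Γ ≃ Γ) : L2 Γ ℂ →L[ℂ] L2 Γ ℂ := WC e (fun _ => LinearIsometry.id)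

@[simp] theorem P_apply (e : Γ ≃ Γ) (ξ : L2 Γ ℂ) (h : Γ) : P e ξ h = ξ (e h) := rfl

noncomputable def δ (g : Γ) : L2 Γ ℂ := lp.single 2 g 1

theorem δ_apply (g h : Γ) : δ g h = if h = g then 1 else 0 := by
  unfold δ
  rw [lp.single_apply, Pi.single_apply]

theorem P_mul (e f : Γ ≃ Γ) : P e * P f = P (e.trans f) := by
  ext ξ h
  rfl

theorem P_refl : P (Equiv.refl Γ) = 1 := by
  ext ξ h
  rfl

theorem P_δ (e : Γ ≃ Γ) (g : Γ) : P e (δ g) = δ (e.symm g) := by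
  ext h
  rw [P_apply, δ_apply, δ_apply]
  simp only [Equiv.eq_symm_apply]

theorem star_P (e : Γ ≃ Γ) : star (P e) = P e.symm := by
  symm
  rw [ContinuousLinearMap.star_eq_adjoint, ContinuousLinearMap.eq_adjoint_iff]
  intro x y
  rw [lp.inner_eq_tsum, lp.inner_eq_tsum]
  simp only [P_apply]
  rw [← e.tsum_eq (fun i => inner ℂ (x (e.symm i)) (y i))]
  simp

theorem δ_inner (g : Γ) (f : L2 Γ ℂ) : inner ℂ (δ g) f = f g := by
  unfold δ
  rw [lp.inner_single_left]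
  simp

theorem δ_ne {g h : Γ} (hgh : g ≠ h) (c : ℂ) : δ g ≠ c • δ h := by
  intro hh
  have := congrArg (fun f : L2 Γ ℂ => f g) hh
  simp only [lp.coeFn_smul, Pi.smul_apply, δ_apply, if_true, if_neg hgh] at this
  simp at this

theorem norm_δ (g : Γ) : ‖δ g‖ = 1 := by
  unfold δ
  rw [lp.norm_single (by norm_num)]
  simp

theorem δ_orth : Orthonormal ℂ (δ : Γ → L2 Γ ℂ) := by
  refine ⟨norm_δ, ?_⟩
  intro g h hgh
  rw [δ_inner, δ_apply, if_neg hgh]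

theorem ext_δ {E : Type} [NormedAddCommGroup E] [NormedSpace ℂ E]
    (S T : L2 Γ ℂ →L[ℂ] E) (h : ∀ g, S (δ g) = T (δ g)) : S = T := by
  apply ext_single
  intro g a
  have : (lp.single 2 g a : L2 Γ ℂ) = a • δ g := by
    unfold δ
    rw [← lp.single_smul]
    simp
  rw [this, map_smul, map_smul, h]

variable [Group Γ]

noncomputable def ρ (g : Γ) : L2 Γ ℂ →L[ℂ] L2 Γ ℂ := P (Equiv.mulRight g)
noncomputable def lam (g : Γ) : L2 Γ ℂ →L[ℂ] L2 Γ ℂ := P (Equiv.mulLeft g⁻¹)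

@[simp] theorem ρ_apply (g : Γ) (ξ : L2 Γ ℂ) (h : Γ) : ρ g ξ h = ξ (h * g) := rfl
@[simp] theorem lam_apply (g : Γ) (ξ : L2 Γ ℂ) (h : Γ) : lam g ξ h = ξ (g⁻¹ * h) := rfl

theorem ρ_δ (g h : Γ) : ρ g (δ h) = δ (h * g⁻¹) := by
  unfold ρ
  rw [P_δ]
  simp

theorem lam_δ (g h : Γ) : lam g (δ h) = δ (g * h) := by
  unfold lam
  rw [P_δ]
  simp

theorem star_ρ (g : Γ) : star (ρ g) = ρ g⁻¹ := by
  unfold ρ
  rw [star_P, Equiv.mulRight_symm]

theorem ρ_lam (g h : Γ) : ρ g * lam h = lam h * ρ g := by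
  ext ξ k
  simp [mul_assoc]

/-- the group von Neumann algebra `L(Γ)`, the commutant of the right regular representation -/
noncomputable def LG (Γ : Type) [Group Γ] : VonNeumannAlgebra (L2 Γ ℂ) where
  toStarSubalgebra := StarSubalgebra.centralizer ℂ (Set.range (ρ : Γ → _))
  centralizer_centralizer' := by
    show Set.centralizer (Set.centralizer (Set.centralizer _)) = _
    rw [Set.centralizer_centralizer_centralizer]
    rfl

theorem mem_LG (x : L2 Γ ℂ →L[ℂ] L2 Γ ℂ) : x ∈ LG Γ ↔ ∀ g, ρ g * x = x * ρ g := by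
  show x ∈ StarSubalgebra.centralizer ℂ (Set.range (ρ : Γ → _)) ↔ _
  rw [StarSubalgebra.mem_centralizer_iff]
  constructor
  · intro h g
    exact (h (ρ g) ⟨g, rfl⟩).1
  · rintro h _ ⟨g, rfl⟩
    exact ⟨h g, by rw [star_ρ]; exact h _⟩

theorem lam_mem (g : Γ) : lam g ∈ LG Γ := by
  rw [mem_LG]
  intro h
  exact ρ_lam h g

theorem LG_δ {x : L2 Γ ℂ →L[ℂ] L2 Γ ℂ} (hx : x ∈ LG Γ) (g : Γ) : x (δ g) = ρ g⁻¹ (x (δ 1)) := by
  have h1 : δ g = ρ g⁻¹ (δ 1) := by rw [ρ_δ]; simp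
  have h2 := (mem_LG x).1 hx g⁻¹
  rw [h1]
  exact (congrArg (fun T : L2 Γ ℂ →L[ℂ] L2 Γ ℂ => T (δ 1)) h2).symm

theorem LG_ext {x y : L2 Γ ℂ →L[ℂ] L2 Γ ℂ} (hx : x ∈ LG Γ) (hy : y ∈ LG Γ)
    (h : x (δ 1) = y (δ 1)) : x = y := by
  apply ext_δ
  intro g
  rw [LG_δ hx, LG_δ hy, h]

theorem tr_formula {x y : L2 Γ ℂ →L[ℂ] L2 Γ ℂ} (hx : x ∈ LG Γ) :
    inner ℂ (δ (1 : Γ)) ((x * y) (δ 1)) = ∑' h : Γ, y (δ 1) h * x (δ 1) h⁻¹ := by
  set f : L2 Γ ℂ := y (δ 1) with hf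
  have h1 := lp.hasSum_single (p := 2) (by norm_num) f
  have h2 := h1.mapL ((innerSL ℂ (δ (1 : Γ))).comp x)
  rw [show (x * y) (δ 1) = x f from rfl]
  rw [show inner ℂ (δ (1:Γ)) (x f) = ((innerSL ℂ (δ (1 : Γ))).comp x) f from rfl, ← h2.tsum_eq]
  congr 1
  ext h
  have h3 : (lp.single 2 h (f h) : L2 Γ ℂ) = f h • δ h := by
    unfold δ
    rw [← lp.single_smul]
    simp
  rw [h3, map_smul]
  show f h • inner ℂ (δ (1:Γ)) (x (δ h)) = _
  rw [δ_inner, LG_δ hx, ρ_apply, one_mul, smul_eq_mul]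

theorem tr_comm {x y : L2 Γ ℂ →L[ℂ] L2 Γ ℂ} (hx : x ∈ LG Γ) (hy : y ∈ LG Γ) :
    inner ℂ (δ (1 : Γ)) ((x * y) (δ 1)) = inner ℂ (δ (1 : Γ)) ((y * x) (δ 1)) := by
  rw [tr_formula hx, tr_formula hy, ← (Equiv.inv Γ).tsum_eq]
  congr 1
  ext h
  simp [mul_comm]

/-- an `ℓ²` function which is constant on an infinite set vanishes there -/
theorem zero_of_const {Γ : Type} (f : L2 Γ ℂ) (S : Set Γ) (hS : S.Infinite) (k : Γ) (h : ∀ s ∈ S, f s = f k) :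
    f k = 0 := by
  by_contra hk
  have h1 := (memℓp_gen_iff (p := 2) (by norm_num)).1 (lp.memℓp f)
  have h2 := h1.tendsto_cofinite_zero
  have h3 : ∀ᶠ g in Filter.cofinite, ‖f g‖ ^ (2:ℝ≥0∞).toReal < ‖f k‖ ^ (2:ℝ≥0∞).toReal := by
    apply h2.eventually_lt_const
    have : 0 < ‖f k‖ := norm_pos_iff.2 hk
    positivity
  rw [Filter.eventually_cofinite] at h3
  apply hS
  apply h3.subset
  intro s hs
  simp [h s hs]

/-- countable support -/
theorem countable_support {Γ : Type} (f : L2 Γ ℂ) : {g | f g ≠ 0}.Countable := by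
  have h1 := (memℓp_gen_iff (p := 2) (by norm_num)).1 (lp.memℓp f)
  have h2 := h1.countable_support
  apply h2.mono
  intro g hg
  simp only [Function.mem_support, ne_eq]
  intro h
  apply hg
  have : ‖f g‖ ^ (2:ℝ) = 0 := by simpa using h
  simpa using this

end groupvN

end Pool.Agent.H710.ECP
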