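import Pool.Agent.H710.ECP.Base

set_option autoImplicit false
open scoped Classical Cardinal

namespace Pool.Agent.H710.ECP

/-- the finitely supported permutations of `X` -/
def FinPerm (X : Type) : Subgroup (Equiv.Perm X) where
  carrier := {π | {x | π x ≠ x}.Finite}
  mul_mem' {π σ} hπ hσ := by
    apply (hπ.union hσ).subset
    intro x hx
    by_contra h
    simp only [Set.mem_union, Set.mem_ofPred_eq, not_or, not_not] at h
    apply hx
    rw [Equiv.Perm.mul_apply, h.2, h.1]
  one_mem' := by simp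
  inv_mem' {π} hπ := by
    apply hπ.subset
    intro x hx h
    apply hx
    rw [Equiv.Perm.inv_eq_iff_eq]
    exact h.symm

instance (X : Type) : (FinPerm X).Normal where
  conj_mem π hπ σ := by
    show {x | (σ * π * σ⁻¹) x ≠ x}.Finite
    apply (hπ.image σ).subset
    intro x hx
    refine ⟨σ⁻¹ x, ?_, by simp⟩
    intro h
    apply hx
    rw [Equiv.Perm.mul_apply, Equiv.Perm.mul_apply, h]
    simp

theorem swap_mem {X : Type} [inst : DecidableEq X] (x y : X) : Equiv.swap x y ∈ FinPerm X := by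
  show {z | Equiv.swap x y z ≠ z}.Finite
  apply (Set.toFinite ({x, y} : Set X)).subset
  intro z hz
  by_contra h
  simp only [Set.mem_insert_iff, Set.mem_singleton_iff, not_or] at h
  exact hz (Equiv.swap_apply_of_ne_of_ne h.1 h.2)

/-- the conjugates of a permutation `≠ 1` of an infinite set by finitely supported permutations -/
theorem conj_infinite {X : Type} [Infinite X] (π : Equiv.Perm X) (hπ : π ≠ 1)
    (F : FinPerm X → FinPerm X) (s : Equiv.Perm X)
    (hF : ∀ γ : FinPerm X, ((F γ : FinPerm X) : Equiv.Perm X) = s * (γ.1 * π * γ.1⁻¹)) :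
    (Set.range F).Infinite := by
  obtain ⟨x, hx⟩ : ∃ x, π x ≠ x := by
    by_contra h
    push Not at h
    exact hπ (Equiv.ext h)
  have hS : ({x, π x}ᶜ : Set X).Infinite := (Set.toFinite _).infinite_compl
  have := hS.to_subtype
  refine Set.infinite_of_injective_forall_mem
    (f := fun w : ({x, π x}ᶜ : Set X) => F ⟨Equiv.swap (π x) w.1, swap_mem _ _⟩) ?_
    (fun w => ⟨_, rfl⟩)
  intro w w' hww
  have h1 := congrArg (fun σ : FinPerm X => s⁻¹ (σ.1 x)) hww
  simp only [hF] at h1
  have h2 : ∀ w : ({x, π x}ᶜ : Set X),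
      s⁻¹ ((s * (Equiv.swap (π x) w.1 * π * (Equiv.swap (π x) w.1)⁻¹)) x) = w.1 := by
    intro w
    have hw := w.2
    simp only [Set.mem_compl_iff, Set.mem_insert_iff, Set.mem_singleton_iff, not_or] at hw
    have h3 : (Equiv.swap (π x) w.1)⁻¹ x = x := by
      rw [Equiv.swap_inv]
      exact Equiv.swap_apply_of_ne_of_ne hx.symm (Ne.symm hw.1)
    rw [Equiv.Perm.mul_apply, Equiv.Perm.mul_apply, Equiv.Perm.mul_apply, h3]
    simp
  rw [h2, h2] at h1
  exact Subtype.ext h1

section card

theorem card_union {G X : Type} [Infinite G] (ι : Type) (hι : #ι ≤ #G) (S : ι → Set X)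
    (hS : ∀ i, (S i).Countable) : #(⋃ i, S i) ≤ #G := by
  have h0 : ℵ₀ ≤ #G := Cardinal.aleph0_le_mk G
  refine (Cardinal.mk_iUnion_le S).trans ?_
  calc #ι * ⨆ i, #(S i) ≤ #G * ℵ₀ := by
        gcongr
        exact ciSup_le' fun i => (Cardinal.le_aleph0_iff_set_countable.2 (hS i))
    _ = #G := Cardinal.mul_aleph0_eq h0

end card

end Pool.Agent.H710.ECP
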