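import Pool.Agent.H710.ECP.Main
import Pool.Agent.H710.ECP.Perm

set_option autoImplicit false
open scoped Classical Cardinal

namespace Pool.Agent.H710.ECP

section
variable (G : Type) [Group G]

/-- `G` acts on `G ⊕ Set G`, by translations on the first and trivially on the second part -/
def act : G →* Equiv.Perm (G ⊕ Set G) where
  toFun g := Equiv.sumCongr (Equiv.mulLeft g) (Equiv.refl _)
  map_one' := by
    ext x
    rcases x with x | x <;> simp
  map_mul' g h := by
    ext x
    rcases x with x | x <;> simp [mul_assoc]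

/-- the action of `G` on the finitely supported permutations of `G ⊕ Set G` by conjugation -/
noncomputable def θ : G →* MulAut (FinPerm (G ⊕ Set G)) := MulAut.conjNormal.comp (act G)

variable {G}

theorem θ_coe (g : G) (γ : FinPerm (G ⊕ Set G)) :
    ((θ G g γ : FinPerm (G ⊕ Set G)) : Equiv.Perm (G ⊕ Set G)) =
      act G g * γ.1 * (act G g)⁻¹ := rfl

theorem act_inl (g h : G) : act G g (Sum.inl h) = Sum.inl (g * h) := rfl
theorem act_inr (g : G) (h : Set G) : act G g (Sum.inr h) = Sum.inr h := rfl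

theorem act_not_fin [Infinite G] {g : G} (hg : g ≠ 1) : act G g ∉ FinPerm (G ⊕ Set G) := by
  intro h
  have h1 : {x | act G g x ≠ x}.Finite := h
  have h2 : (Set.range (Sum.inl : G → G ⊕ Set G)).Infinite :=
    Set.infinite_range_of_injective Sum.inl_injective
  apply h2
  apply h1.subset
  rintro _ ⟨k, rfl⟩
  rw [Set.mem_ofPred_eq, act_inl]
  intro hk
  have := Sum.inl_injective hk
  exact hg (by simpa using this)

theorem θ_inf [Infinite G] (g : G) (k : FinPerm (G ⊕ Set G)) (h : g ≠ 1 ∨ k ≠ 1) :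
    (Set.range fun γ : FinPerm (G ⊕ Set G) => θ G g γ * k * γ⁻¹).Infinite := by
  apply conj_infinite ((act G g)⁻¹ * k.1) _ _ (act G g)
  · intro γ
    show act G g * γ.1 * (act G g)⁻¹ * k.1 * γ.1⁻¹ = _
    group
  · intro h1
    have h2 : act G g = k.1 := by
      rw [inv_mul_eq_one] at h1
      exact h1
    by_cases hg : g = 1
    · subst hg
      rcases h with h | h
      · exact h rfl
      · apply h
        apply Subtype.ext
        rw [← h2, map_one]
        rfl
    · exact act_not_fin hg (h2 ▸ k.2)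

omit [Group G] in
theorem avoid [Infinite G] (B : Set (G ⊕ Set G)) (hB : #B ≤ #G) :
    ∃ p : Set G, (Sum.inr p : G ⊕ Set G) ∉ B := by
  by_contra h
  push Not at h
  have h1 : #(Set G) ≤ #B := by
    apply Cardinal.mk_le_of_injective (f := fun p : Set G => (⟨Sum.inr p, h p⟩ : B))
    intro p q hpq
    exact Sum.inr_injective (congrArg Subtype.val hpq)
  have h2 : #G < #(Set G) := by
    rw [Cardinal.mk_set]
    exact Cardinal.cantor _
  exact absurd (h1.trans hB) (not_le.2 h2)

theorem θ_fix [Infinite G] (f : G → L2 (FinPerm (G ⊕ Set G)) ℂ) :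
    ∃ z : FinPerm (G ⊕ Set G), z ≠ 1 ∧ (∀ g, θ G g z = z) ∧
      ∀ g c, f g c ≠ 0 → z * c = c * z := by
  set C : Set (FinPerm (G ⊕ Set G)) := ⋃ g : G, {c | f g c ≠ 0} with hC
  have hC1 : #C ≤ #G := card_union G le_rfl _ (fun g => countable_support (f g))
  set B : Set (G ⊕ Set G) := ⋃ c : C, {x | c.1.1 x ≠ x} with hBdef
  have hB1 : #B ≤ #G := card_union C hC1 _ (fun c => c.1.2.countable)
  obtain ⟨p, hp⟩ := avoid B hB1
  have hB2 : #(insert (Sum.inr p) B : Set (G ⊕ Set G)) ≤ #G := by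
    refine (Cardinal.mk_insert_le).trans ?_
    have h0 : ℵ₀ ≤ #G := Cardinal.aleph0_le_mk G
    calc #B + 1 ≤ #G + 1 := by gcongr
      _ = #G := Cardinal.add_one_eq h0
  obtain ⟨q, hq⟩ := avoid _ hB2
  have hpq : (Sum.inr p : G ⊕ Set G) ≠ Sum.inr q := by
    intro h
    exact hq (Set.mem_insert_iff.2 (Or.inl h.symm))
  have hqB : (Sum.inr q : G ⊕ Set G) ∉ B := fun h => hq (Set.mem_insert_of_mem _ h)
  refine ⟨⟨Equiv.swap (Sum.inr p) (Sum.inr q), swap_mem _ _⟩, ?_, ?_, ?_⟩
  · intro h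
    have h1 := congrArg Subtype.val h
    have h2 := congrArg (fun σ : Equiv.Perm (G ⊕ Set G) => σ (Sum.inr p)) h1
    have h3 : Equiv.swap (Sum.inr p : G ⊕ Set G) (Sum.inr q) (Sum.inr p) = Sum.inr p := h2
    rw [Equiv.swap_apply_left] at h3
    exact hpq h3.symm
  · intro g
    apply Subtype.ext
    rw [θ_coe]
    show act G g * Equiv.swap (Sum.inr p) (Sum.inr q) * (act G g)⁻¹ =
      Equiv.swap (Sum.inr p) (Sum.inr q)
    rw [Equiv.mul_swap_eq_swap_mul, act_inr, act_inr, mul_assoc, mul_inv_cancel, mul_one]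
  · intro g c hc
    have hcC : c ∈ C := Set.mem_iUnion.2 ⟨g, hc⟩
    have hfix : ∀ r : Set G, (Sum.inr r : G ⊕ Set G) ∉ B → c.1 (Sum.inr r) = Sum.inr r := by
      intro r hr
      by_contra hne
      exact hr (Set.mem_iUnion.2 ⟨⟨c, hcC⟩, hne⟩)
    apply Subtype.ext
    show Equiv.swap (Sum.inr p) (Sum.inr q) * c.1 = c.1 * Equiv.swap (Sum.inr p) (Sum.inr q)
    rw [Equiv.mul_swap_eq_swap_mul, hfix p hp, hfix q hqB]

end

theorem main (G : Type) [Group G] [Infinite G] :
    ∃ (H : Type) (_ : NormedAddCommGroup H) (_ : InnerProductSpace ℂ H) (_ : CompleteSpace H)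
      (M : VonNeumannAlgebra H) (α : G →* Aut M),
      IsIIOneFactor M ∧ StrictlyOuter M α ∧
        ∀ v : G → M.toStarSubalgebra, IsCocycle M α v → ¬ ErgodicPerturbation M α v := by
  refine ⟨L2 (FinPerm (G ⊕ Set G)) ℂ, inferInstance, inferInstance, inferInstance,
    LG (FinPerm (G ⊕ Set G)), toAut.comp (θ G), ?_, ?_, ?_⟩
  · have hicc : ∀ k : FinPerm (G ⊕ Set G), k ≠ 1 →
        (Set.range fun γ : FinPerm (G ⊕ Set G) => γ * k * γ⁻¹).Infinite := by
      intro k hk
      have := θ_inf (G := G) 1 k (Or.inr hk)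
      simpa using this
    apply factor _ hicc
    obtain ⟨z, hz, -⟩ := θ_fix (G := G) (fun _ => 0)
    by_contra hfin
    rw [not_infinite_iff_finite] at hfin
    exact hicc z hz (Set.toFinite _)
  · exact strictlyOuter (θ G) θ_inf
  · intro v hv
    exact nonergodic (θ G) θ_fix v hv

end Pool.Agent.H710.ECP
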