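import Pool.Agent.H710.ECP.Base

set_option autoImplicit false
open scoped ENNReal Classical

namespace Pool.Agent.H710.ECP

section defs
variable {H : Type} [NormedAddCommGroup H] [InnerProductSpace ℂ H] [CompleteSpace H]

/-- `M ⊆ B(H)` is a II₁ factor: its centre is `ℂ 1`, it is infinite-dimensional, and there is a unit
vector `ξ` for which `x ↦ ⟪ξ, x ξ⟫` is a faithful (normal) tracial state on `M`. -/
def IsIIOneFactor (M : VonNeumannAlgebra H) : Prop :=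
  (∀ z ∈ M, (∀ x ∈ M, z * x = x * z) → ∃ c : ℂ, z = c • (1 : H →L[ℂ] H)) ∧
  (¬ ∃ s : Finset (H →L[ℂ] H), ∀ x ∈ M, x ∈ Submodule.span ℂ (s : Set (H →L[ℂ] H))) ∧
  ∃ ξ : H, ‖ξ‖ = 1 ∧ (∀ x ∈ M, x ξ = 0 → x = 0) ∧
    ∀ x ∈ M, ∀ y ∈ M, inner ℂ ξ ((x * y) ξ) = inner ℂ ξ ((y * x) ξ)

/-- the group of `*`-automorphisms of `M` -/
abbrev Aut (M : VonNeumannAlgebra H) : Type := M.toStarSubalgebra ≃⋆ₐ[ℂ] M.toStarSubalgebra

variable {G : Type} [Group G]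

/-- the operator `π(x)` on `ℓ²(G, H)`, `(π(x) ξ)(g) = α_{g⁻¹}(x) ξ(g)` (as a relation) -/
def IsAmp (M : VonNeumannAlgebra H) (α : G →* Aut M) (x : M.toStarSubalgebra)
    (T : L2 G H →L[ℂ] L2 G H) : Prop :=
  ∀ (ξ : L2 G H) (g : G), T ξ g = ((α g⁻¹ x : M.toStarSubalgebra) : H →L[ℂ] H) (ξ g)

/-- the translation `(λ_h ξ)(g) = ξ(h⁻¹ g)` on `ℓ²(G, H)` (as a relation) -/
def IsTrans (h : G) (T : L2 G H →L[ℂ] L2 G H) : Prop :=
  ∀ (ξ : L2 G H) (g : G), T ξ g = ξ (h⁻¹ * g)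

/-- the crossed product `M ⋊_α G`: the bicommutant of the `π(x)`, `x ∈ M`, and the translations -/
def CrossedProduct (M : VonNeumannAlgebra H) (α : G →* Aut M) : Set (L2 G H →L[ℂ] L2 G H) :=
  Set.centralizer (Set.centralizer
    ({T | ∃ x, IsAmp M α x T} ∪ {T | ∃ h : G, IsTrans h T}))

/-- `M' ∩ (M ⋊_α G) = ℂ 1` -/
def StrictlyOuter (M : VonNeumannAlgebra H) (α : G →* Aut M) : Prop :=
  ∀ T ∈ CrossedProduct M α, (∀ x S, IsAmp M α x S → S * T = T * S) →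
    ∃ c : ℂ, T = c • (1 : L2 G H →L[ℂ] L2 G H)

/-- `v` is a `1`-cocycle for `α`: unitaries of `M` with `v_{gh} = v_g α_g(v_h)` -/
def IsCocycle (M : VonNeumannAlgebra H) (α : G →* Aut M) (v : G → M.toStarSubalgebra) : Prop :=
  (∀ g, star (v g) * v g = 1 ∧ v g * star (v g) = 1) ∧ ∀ g h, v (g * h) = v g * α g (v h)

/-- the fixed point algebra of the cocycle perturbation `Ad v ∘ α` is `ℂ 1` -/
def ErgodicPerturbation (M : VonNeumannAlgebra H) (α : G →* Aut M) (v : G → M.toStarSubalgebra) :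
    Prop :=
  ∀ x : M.toStarSubalgebra, (∀ g, v g * α g x * star (v g) = x) →
    ∃ c : ℂ, x = c • (1 : M.toStarSubalgebra)

end defs

section U
variable {Γ : Type} [Group Γ]

/-- the unitary `(U φ ξ)(h) = ξ(φ⁻¹ h)` -/
noncomputable def U (φ : MulAut Γ) : L2 Γ ℂ →L[ℂ] L2 Γ ℂ := P (φ⁻¹ : MulAut Γ).toEquiv

@[simp] theorem U_apply (φ : MulAut Γ) (ξ : L2 Γ ℂ) (h : Γ) : U φ ξ h = ξ ((φ⁻¹ : MulAut Γ) h) := rfl

theorem U_mul (φ ψ : MulAut Γ) : U φ * U ψ = U (φ * ψ) := by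
  ext ξ h
  rfl

theorem U_one : U (1 : MulAut Γ) = 1 := by
  ext ξ h
  rfl

theorem star_U (φ : MulAut Γ) : star (U φ) = U φ⁻¹ := by
  unfold U
  rw [star_P]
  rfl

theorem ρ_U (g : Γ) (φ : MulAut Γ) : ρ g * U φ = U φ * ρ ((φ⁻¹ : MulAut Γ) g) := by
  ext ξ h
  simp

theorem U_ρ (g : Γ) (φ : MulAut Γ) : U φ * ρ g = ρ (φ g) * U φ := by
  rw [ρ_U]
  simp

theorem U_lam (g : Γ) (φ : MulAut Γ) : U φ * lam g = lam (φ g) * U φ := by
  ext ξ h
  simp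

theorem U_δ (φ : MulAut Γ) (g : Γ) : U φ (δ g) = δ (φ g) := by
  unfold U
  rw [P_δ]
  rfl

theorem conj_mem (φ : MulAut Γ) {x : L2 Γ ℂ →L[ℂ] L2 Γ ℂ} (hx : x ∈ LG Γ) :
    U φ * x * U φ⁻¹ ∈ LG Γ := by
  rw [mem_LG] at *
  intro g
  have h1 : ρ g * U φ = U φ * ρ ((φ⁻¹ : MulAut Γ) g) := ρ_U g φ
  have h2 : U φ⁻¹ * ρ g = ρ ((φ⁻¹ : MulAut Γ) g) * U φ⁻¹ := U_ρ g φ⁻¹
  calc ρ g * (U φ * x * U φ⁻¹) = (ρ g * U φ) * x * U φ⁻¹ := by simp only [mul_assoc]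
    _ = U φ * (ρ ((φ⁻¹ : MulAut Γ) g) * x) * U φ⁻¹ := by rw [h1]; simp only [mul_assoc]
    _ = U φ * (x * ρ ((φ⁻¹ : MulAut Γ) g)) * U φ⁻¹ := by rw [hx]
    _ = U φ * x * (ρ ((φ⁻¹ : MulAut Γ) g) * U φ⁻¹) := by simp only [mul_assoc]
    _ = U φ * x * (U φ⁻¹ * ρ g) := by rw [h2]
    _ = U φ * x * U φ⁻¹ * ρ g := by simp only [mul_assoc]

theorem UU (φ : MulAut Γ) : U φ * U φ⁻¹ = 1 := by rw [U_mul, mul_inv_cancel, U_one]
theorem UU' (φ : MulAut Γ) : U φ⁻¹ * U φ = 1 := by rw [U_mul, inv_mul_cancel, U_one]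

noncomputable def conjFun (φ : MulAut Γ) (x : (LG Γ).toStarSubalgebra) :
    (LG Γ).toStarSubalgebra := ⟨U φ * x.1 * U φ⁻¹, conj_mem φ x.2⟩

theorem conjFun_mul (φ ψ : MulAut Γ) (x : (LG Γ).toStarSubalgebra) :
    conjFun φ (conjFun ψ x) = conjFun (φ * ψ) x := by
  apply Subtype.ext
  show U φ * (U ψ * x.1 * U ψ⁻¹) * U φ⁻¹ = U (φ * ψ) * x.1 * U (φ * ψ)⁻¹
  rw [mul_inv_rev, ← U_mul, ← U_mul]
  simp only [mul_assoc]

theorem conjFun_one (x : (LG Γ).toStarSubalgebra) : conjFun 1 x = x := by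
  apply Subtype.ext
  show U 1 * x.1 * U 1⁻¹ = x.1
  rw [inv_one, U_one, one_mul, mul_one]

/-- the automorphism of `L(Γ)` given by an automorphism of `Γ` -/
noncomputable def toAut : MulAut Γ →* Aut (LG Γ) where
  toFun φ :=
    { toFun := conjFun φ
      invFun := conjFun φ⁻¹
      left_inv := fun x => by rw [conjFun_mul, inv_mul_cancel, conjFun_one]
      right_inv := fun x => by rw [conjFun_mul, mul_inv_cancel, conjFun_one]
      map_mul' := fun x y => by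
        apply Subtype.ext
        show U φ * (x.1 * y.1) * U φ⁻¹ = (U φ * x.1 * U φ⁻¹) * (U φ * y.1 * U φ⁻¹)
        calc U φ * (x.1 * y.1) * U φ⁻¹ = U φ * x.1 * 1 * y.1 * U φ⁻¹ := by
              simp only [mul_assoc, one_mul]
          _ = U φ * x.1 * (U φ⁻¹ * U φ) * y.1 * U φ⁻¹ := by rw [UU']
          _ = _ := by simp only [mul_assoc]
      map_add' := fun x y => by
        apply Subtype.ext
        show U φ * (x.1 + y.1) * U φ⁻¹ = (U φ * x.1 * U φ⁻¹) + (U φ * y.1 * U φ⁻¹)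
        rw [mul_add, add_mul]
      map_smul' := fun c x => by
        apply Subtype.ext
        show U φ * (c • x.1) * U φ⁻¹ = c • (U φ * x.1 * U φ⁻¹)
        rw [mul_smul_comm, smul_mul_assoc]
      map_star' := fun x => by
        apply Subtype.ext
        show U φ * (star x.1) * U φ⁻¹ = star (U φ * x.1 * U φ⁻¹)
        rw [star_mul, star_mul, star_U, star_U, inv_inv]
        simp only [mul_assoc] }
  map_one' := by
    ext x : 1
    exact conjFun_one x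
  map_mul' φ ψ := by
    ext x : 1
    exact (conjFun_mul φ ψ x).symm

@[simp] theorem toAut_coe (φ : MulAut Γ) (x : (LG Γ).toStarSubalgebra) :
    ((toAut φ x : (LG Γ).toStarSubalgebra) : L2 Γ ℂ →L[ℂ] L2 Γ ℂ) = U φ * x.1 * U φ⁻¹ := rfl

end U

section factor
variable {Γ : Type} [Group Γ]

theorem smul_one_mem (c : ℂ) : c • (1 : L2 Γ ℂ →L[ℂ] L2 Γ ℂ) ∈ LG Γ := by
  rw [mem_LG]
  intro g
  rw [mul_smul_comm, smul_mul_assoc, mul_one, one_mul]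

theorem factor (hinf : Infinite Γ)
    (hicc : ∀ k : Γ, k ≠ 1 → (Set.range fun γ : Γ => γ * k * γ⁻¹).Infinite) :
    IsIIOneFactor (LG Γ) := by
  refine ⟨?_, ?_, δ 1, norm_δ 1, ?_, fun x hx y hy => tr_comm hx hy⟩
  · intro z hz hc
    have hf : ∀ γ h : Γ, z (δ 1) (γ⁻¹ * h * γ) = z (δ 1) h := by
      intro γ h
      have h1 : lam γ (ρ γ (z (δ 1))) = z (δ 1) := by
        have e1 : ρ γ (z (δ 1)) = z (ρ γ (δ 1)) :=
          congrArg (fun T : L2 Γ ℂ →L[ℂ] L2 Γ ℂ => T (δ 1)) ((mem_LG z).1 hz γ)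
        have e2 : lam γ (z (ρ γ (δ 1))) = z (lam γ (ρ γ (δ 1))) :=
          congrArg (fun T : L2 Γ ℂ →L[ℂ] L2 Γ ℂ => T (ρ γ (δ 1))) (hc (lam γ) (lam_mem γ)).symm
        rw [e1, e2, ρ_δ, lam_δ]
        simp
      have h2 := congrArg (fun f : L2 Γ ℂ => f h) h1
      simpa [mul_assoc] using h2
    have hz0 : ∀ k : Γ, k ≠ 1 → z (δ 1) k = 0 := by
      intro k hk
      apply zero_of_const _ _ (hicc k hk) k
      rintro _ ⟨γ, rfl⟩
      have := hf γ (γ * k * γ⁻¹)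
      simpa [mul_assoc] using this.symm
    refine ⟨z (δ 1) 1, ?_⟩
    apply LG_ext hz (smul_one_mem _)
    ext k
    by_cases hk : k = 1
    · subst hk
      simp [δ_apply]
    · rw [hz0 k hk]
      simp [δ_apply, hk]
  · rintro ⟨s, hs⟩
    have li : LinearIndependent ℂ (lam : Γ → L2 Γ ℂ →L[ℂ] L2 Γ ℂ) := by
      apply LinearIndependent.of_comp (ContinuousLinearMap.apply ℂ (L2 Γ ℂ) (δ (1 : Γ))).toLinearMap
      have : ((ContinuousLinearMap.apply ℂ (L2 Γ ℂ) (δ (1 : Γ))).toLinearMap ∘ lam) =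
          (δ : Γ → L2 Γ ℂ) := by
        funext g
        show lam g (δ 1) = δ g
        rw [lam_δ, mul_one]
      rw [this]
      exact δ_orth.linearIndependent
    have hfin : Finite Γ := by
      apply LinearIndependent.finite_of_le_span_finite lam li
        (s : Set (L2 Γ ℂ →L[ℂ] L2 Γ ℂ))
      rintro _ ⟨g, rfl⟩
      exact hs _ (lam_mem g)
    exact not_finite Γ
  · intro x hx h
    apply LG_ext hx (zero_mem _)
    rw [h]
    rfl

end factor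

section outer
variable {Γ G : Type} [Group Γ] [Group G]

/-- isometric form of `P` -/
noncomputable def PI (e : Γ ≃ Γ) : L2 Γ ℂ →ₗᵢ[ℂ] L2 Γ ℂ := W e (fun _ => LinearIsometry.id)

noncomputable def V (θ : G →* MulAut Γ) (h : G) : L2 G (L2 Γ ℂ) →L[ℂ] L2 G (L2 Γ ℂ) :=
  WC (Equiv.mulRight h) (fun _ => PI ((θ h)⁻¹ : MulAut Γ).toEquiv)

noncomputable def R (G : Type) [Group G] (γ : Γ) : L2 G (L2 Γ ℂ) →L[ℂ] L2 G (L2 Γ ℂ) :=
  WC (Equiv.refl G) (fun _ => PI (Equiv.mulRight γ))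

noncomputable def Lc (θ : G →* MulAut Γ) (γ : Γ) : L2 G (L2 Γ ℂ) →L[ℂ] L2 G (L2 Γ ℂ) :=
  WC (Equiv.refl G) (fun g => PI (Equiv.mulLeft (θ g⁻¹ γ)⁻¹))

theorem V_apply (θ : G →* MulAut Γ) (h : G) (ξ : L2 G (L2 Γ ℂ)) (g : G) :
    V θ h ξ g = U (θ h) (ξ (g * h)) := rfl

theorem R_apply (γ : Γ) (ξ : L2 G (L2 Γ ℂ)) (g : G) : R G γ ξ g = ρ γ (ξ g) := rfl

theorem Lc_apply (θ : G →* MulAut Γ) (γ : Γ) (ξ : L2 G (L2 Γ ℂ)) (g : G) :
    Lc θ γ ξ g = lam (θ g⁻¹ γ) (ξ g) := rfl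

theorem V_mem (θ : G →* MulAut Γ) (h : G) : V θ h ∈ Set.centralizer
    ({T : L2 G (L2 Γ ℂ) →L[ℂ] L2 G (L2 Γ ℂ) | ∃ x, IsAmp (LG Γ) (toAut.comp θ) x T} ∪
      {T | ∃ h : G, IsTrans h T}) := by
  rw [Set.mem_centralizer_iff]
  rintro T (⟨x, hx⟩ | ⟨k, hk⟩)
  · apply ContinuousLinearMap.ext
    intro ξ
    apply lp.ext
    funext g
    show T (V θ h ξ) g = V θ h (T ξ) g
    rw [hx, V_apply, V_apply, hx]
    have key : (U (θ g⁻¹) * x.1 * U (θ g⁻¹)⁻¹) * U (θ h) =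
        U (θ h) * (U (θ (g * h)⁻¹) * x.1 * U (θ (g * h)⁻¹)⁻¹) := by
      have e1 : U (θ g⁻¹)⁻¹ * U (θ h) = U (θ (g * h)⁻¹)⁻¹ := by
        rw [U_mul]
        congr 1
        simp
      have e2 : U (θ h) * U (θ (g * h)⁻¹) = U (θ g⁻¹) := by
        rw [U_mul]
        congr 1
        simp
      calc (U (θ g⁻¹) * x.1 * U (θ g⁻¹)⁻¹) * U (θ h)
          = U (θ g⁻¹) * x.1 * (U (θ g⁻¹)⁻¹ * U (θ h)) := by simp only [mul_assoc]
        _ = (U (θ h) * U (θ (g * h)⁻¹)) * x.1 * U (θ (g * h)⁻¹)⁻¹ := by rw [e1, e2]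
        _ = _ := by simp only [mul_assoc]
    exact congrArg (fun T : L2 Γ ℂ →L[ℂ] L2 Γ ℂ => T (ξ (g * h))) key
  · apply ContinuousLinearMap.ext
    intro ξ
    apply lp.ext
    funext g
    show T (V θ h ξ) g = V θ h (T ξ) g
    rw [hk, V_apply, V_apply, hk, mul_assoc]

theorem R_mem (θ : G →* MulAut Γ) (γ : Γ) : R G γ ∈ Set.centralizer
    ({T : L2 G (L2 Γ ℂ) →L[ℂ] L2 G (L2 Γ ℂ) | ∃ x, IsAmp (LG Γ) (toAut.comp θ) x T} ∪
      {T | ∃ h : G, IsTrans h T}) := by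
  rw [Set.mem_centralizer_iff]
  rintro T (⟨x, hx⟩ | ⟨k, hk⟩)
  · apply ContinuousLinearMap.ext
    intro ξ
    apply lp.ext
    funext g
    show T (R G γ ξ) g = R G γ (T ξ) g
    rw [hx, R_apply, R_apply, hx]
    have h1 := (mem_LG _).1 ((toAut.comp θ) g⁻¹ x).2 γ
    exact congrArg (fun T : L2 Γ ℂ →L[ℂ] L2 Γ ℂ => T (ξ g)) h1.symm
  · apply ContinuousLinearMap.ext
    intro ξ
    apply lp.ext
    funext g
    show T (R G γ ξ) g = R G γ (T ξ) g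
    rw [hk, R_apply, R_apply, hk]

theorem Lc_amp (θ : G →* MulAut Γ) (γ : Γ) :
    IsAmp (LG Γ) (toAut.comp θ) ⟨lam γ, lam_mem γ⟩ (Lc θ γ) := by
  intro ξ g
  rw [Lc_apply]
  have key : lam (θ g⁻¹ γ) = U (θ g⁻¹) * lam γ * U (θ g⁻¹)⁻¹ := by
    rw [U_lam, mul_assoc, UU, mul_one]
  exact congrArg (fun T : L2 Γ ℂ →L[ℂ] L2 Γ ℂ => T (ξ g)) key

theorem R_single (γ : Γ) (g : G) (a : L2 Γ ℂ) :
    R G γ (lp.single 2 g a) = lp.single 2 g (ρ γ a) := by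
  apply lp.ext
  funext k
  rw [R_apply, lp.single_apply, lp.single_apply, Pi.single_apply, Pi.single_apply]
  split_ifs
  · rfl
  · rw [map_zero]

theorem V_single (θ : G →* MulAut Γ) (h g : G) (a : L2 Γ ℂ) :
    V θ h (lp.single 2 g a) = lp.single 2 (g * h⁻¹) (U (θ h) a) := by
  apply lp.ext
  funext k
  rw [V_apply, lp.single_apply, lp.single_apply, Pi.single_apply, Pi.single_apply]
  by_cases hk : k * h = g
  · rw [if_pos hk, if_pos (by rw [← hk]; simp)]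
  · rw [if_neg hk, if_neg (by rintro rfl; exact hk (by simp)), map_zero]

theorem strictlyOuter (θ : G →* MulAut Γ)
    (hinf : ∀ (g : G) (k : Γ), (g ≠ 1 ∨ k ≠ 1) →
      (Set.range fun γ : Γ => θ g γ * k * γ⁻¹).Infinite) :
    StrictlyOuter (LG Γ) (toAut.comp θ) := by
  intro T hT hcomm
  have hTV : ∀ h ξ, V θ h (T ξ) = T (V θ h ξ) := fun h ξ =>
    congrArg (fun S : L2 G (L2 Γ ℂ) →L[ℂ] L2 G (L2 Γ ℂ) => S ξ)
      (Set.mem_centralizer_iff.1 hT _ (V_mem θ h))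
  have hTR : ∀ γ ξ, R G γ (T ξ) = T (R G γ ξ) := fun γ ξ =>
    congrArg (fun S : L2 G (L2 Γ ℂ) →L[ℂ] L2 G (L2 Γ ℂ) => S ξ)
      (Set.mem_centralizer_iff.1 hT _ (R_mem θ γ))
  have hTL : ∀ γ ξ, Lc θ γ (T ξ) = T (Lc θ γ ξ) := fun γ ξ =>
    congrArg (fun S : L2 G (L2 Γ ℂ) →L[ℂ] L2 G (L2 Γ ℂ) => S ξ)
      (hcomm _ _ (Lc_amp θ γ))
  set e : L2 G (L2 Γ ℂ) := lp.single 2 (1 : G) (δ (1 : Γ)) with he
  have h1 : ∀ γ : Γ, Lc θ γ (R G γ e) = e := by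
    intro γ
    rw [he, R_single, ρ_δ]
    apply lp.ext
    funext k
    rw [Lc_apply, lp.single_apply, lp.single_apply, Pi.single_apply, Pi.single_apply]
    by_cases hk : k = 1
    · subst hk
      rw [if_pos rfl, if_pos rfl, lam_δ]
      simp
    · rw [if_neg hk, if_neg hk, map_zero]
  have h3 : ∀ (g : G) (γ k : Γ), T e g ((θ g⁻¹ γ)⁻¹ * k * γ) = T e g k := by
    intro g γ k
    have h2 : Lc θ γ (R G γ (T e)) = T e := by rw [hTR, hTL, h1]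
    have h4 := congrArg (fun f : L2 G (L2 Γ ℂ) => f g k) h2
    exact h4
  have h4 : ∀ (g : G) (k : Γ), (g ≠ 1 ∨ k ≠ 1) → T e g k = 0 := by
    intro g k hgk
    apply zero_of_const _ _ (hinf g⁻¹ k (by simpa using hgk)) k
    rintro _ ⟨γ, rfl⟩
    have h5 := h3 g γ (θ g⁻¹ γ * k * γ⁻¹)
    have h6 : (θ g⁻¹ γ)⁻¹ * (θ g⁻¹ γ * k * γ⁻¹) * γ = k := by group
    rw [h6] at h5
    exact h5.symm
  have h5 : T e = (T e 1 1) • e := by
    apply lp.ext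
    funext g
    apply lp.ext
    funext k
    rw [lp.coeFn_smul, Pi.smul_apply, lp.coeFn_smul, Pi.smul_apply, he, lp.single_apply,
      Pi.single_apply]
    by_cases hg : g = 1
    · subst hg
      rw [if_pos rfl, δ_apply]
      by_cases hk : k = 1
      · subst hk
        simp
      · rw [if_neg hk, h4 1 k (Or.inr hk)]
        simp
    · rw [if_neg hg, h4 g k (Or.inl hg)]
      simp
  refine ⟨T e 1 1, ?_⟩
  apply ext_single
  intro g a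
  set c := T e 1 1 with hc
  have h6 : T.comp (lp.singleContinuousLinearMap ℂ (fun _ : G => L2 Γ ℂ) 2 g) =
      (c • (1 : L2 G (L2 Γ ℂ) →L[ℂ] L2 G (L2 Γ ℂ))).comp
        (lp.singleContinuousLinearMap ℂ (fun _ : G => L2 Γ ℂ) 2 g) := by
    apply ext_δ
    intro k
    show T (lp.single 2 g (δ k)) = c • (lp.single 2 g (δ k))
    have h7 : (lp.single 2 g (δ k) : L2 G (L2 Γ ℂ)) = R G k⁻¹ (V θ g⁻¹ e) := by
      rw [he, V_single, R_single, U_δ, ρ_δ]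
      simp
    rw [h7, ← hTR, ← hTV, h5, map_smul, map_smul]
  exact congrArg (fun S : L2 Γ ℂ →L[ℂ] L2 G (L2 Γ ℂ) => S a) h6

end outer

section nonerg
variable {Γ G : Type} [Group Γ] [Group G]

theorem nonergodic (θ : G →* MulAut Γ)
    (hz : ∀ f : G → L2 Γ ℂ, ∃ z : Γ, z ≠ 1 ∧ (∀ g, θ g z = z) ∧
      ∀ g c, f g c ≠ 0 → z * c = c * z)
    (v : G → (LG Γ).toStarSubalgebra) (hv : IsCocycle (LG Γ) (toAut.comp θ) v) :
    ¬ ErgodicPerturbation (LG Γ) (toAut.comp θ) v := by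
  intro herg
  obtain ⟨z, hz1, hzθ, hzC⟩ := hz (fun g => (v g).1 (δ 1))
  obtain ⟨c, hc⟩ := herg ⟨lam z, lam_mem z⟩ (by
    intro g
    apply Subtype.ext
    show (v g).1 * (U (θ g) * lam z * U (θ g)⁻¹) * star (v g).1 = lam z
    have e1 : U (θ g) * lam z * U (θ g)⁻¹ = lam z := by
      rw [U_lam, hzθ, mul_assoc, UU, mul_one]
    have e2 : (v g).1 * lam z = lam z * (v g).1 := by
      apply LG_ext (mul_mem (v g).2 (lam_mem z)) (mul_mem (lam_mem z) (v g).2)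
      show (v g).1 (lam z (δ 1)) = lam z ((v g).1 (δ 1))
      rw [lam_δ, mul_one, LG_δ (v g).2]
      ext k
      rw [ρ_apply, lam_apply]
      by_cases h1 : (v g).1 (δ 1) (k * z⁻¹) = 0
      · by_cases h2 : (v g).1 (δ 1) (z⁻¹ * k) = 0
        · rw [h1, h2]
        · have h3 := hzC g _ h2
          have h4 : k = z⁻¹ * k * z := by rw [← h3]; group
          have h5 : k * z⁻¹ = z⁻¹ * k := by
            calc k * z⁻¹ = (z⁻¹ * k * z) * z⁻¹ := by rw [← h4]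
              _ = z⁻¹ * k := by group
          rw [h5]
      · have h3 := hzC g _ h1
        have h4 : z * (k * z⁻¹) = k := by rw [h3]; group
        have h5 : k * z⁻¹ = z⁻¹ * k := by
          calc k * z⁻¹ = z⁻¹ * (z * (k * z⁻¹)) := by group
            _ = z⁻¹ * k := by rw [h4]
        rw [h5]
    have e3 : (v g).1 * star (v g).1 = 1 := congrArg Subtype.val (hv.1 g).2
    rw [e1, e2, mul_assoc, e3, mul_one])
  have h1 : lam z = c • (1 : L2 Γ ℂ →L[ℂ] L2 Γ ℂ) := congrArg Subtype.val hc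
  have h2 := congrArg (fun T : L2 Γ ℂ →L[ℂ] L2 Γ ℂ => T (δ 1)) h1
  have h3 : δ z = c • δ (1 : Γ) := by
    have : lam z (δ 1) = c • δ (1 : Γ) := h2
    rwa [lam_δ, mul_one] at this
  exact δ_ne hz1 c h3

end nonerg

end Pool.Agent.H710.ECP
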